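import Pool.Agent.Q248.L72.Stm
import Pool.Agent.Y773.Pois

/-! Project L72 (helper248), job INV: theta inversion for an even unimodular lattice of rank 72. -/

set_option autoImplicit false

open MeasureTheory Complex

namespace Pool.Agent.Q91.L72.INV

open Pool.Agent.Q248.L72
open Pool.Agent.Y773 (GD ech ghat poisson summable_gd)

/-- coordinate space -/
abbrev W : Type := Fin 72 → ℝ

theorem gd_of (T : W ≃ₗ[ℝ] V) (a : ℝ) (ha : 0 < a) (u : V) (B : ℝ) (g : W → ℂ)
    (hg : ∀ t, ‖g t‖ ≤ B * Real.exp (-a * ‖T t - u‖ ^ 2)) : GD g := by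
  obtain ⟨S, hS⟩ : ∃ S : V →L[ℝ] W, ∀ t, S (T t) = t :=
    ⟨(T.symm : V →ₗ[ℝ] W).toContinuousLinearMap, fun t => T.symm_apply_apply t⟩
  obtain ⟨K, hK0, hK⟩ : ∃ K : ℝ, 0 < K ∧ ∀ t, ‖t‖ ≤ K * ‖T t‖ := by
    refine ⟨‖S‖ + 1, by positivity, fun t => ?_⟩
    have h1 := S.le_opNorm (T t)
    rw [hS] at h1
    nlinarith [norm_nonneg (T t)]
  refine ⟨|B| * Real.exp (a * ‖u‖ ^ 2), a / (2 * K ^ 2), by positivity, fun t => ?_⟩
  have h1 : ‖T t‖ ≤ ‖T t - u‖ + ‖u‖ := by
    have := norm_add_le (T t - u) u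
    simpa using this
  have h2 : ‖T t‖ ^ 2 ≤ 2 * ‖T t - u‖ ^ 2 + 2 * ‖u‖ ^ 2 := by
    have h3 := pow_le_pow_left₀ (norm_nonneg _) h1 2
    nlinarith [sq_nonneg (‖T t - u‖ - ‖u‖)]
  have h4 : ‖t‖ ^ 2 / K ^ 2 ≤ ‖T t‖ ^ 2 := by
    rw [div_le_iff₀ (by positivity), mul_comm, ← mul_pow]
    exact pow_le_pow_left₀ (norm_nonneg _) (hK t) 2
  calc ‖g t‖ ≤ B * Real.exp (-a * ‖T t - u‖ ^ 2) := hg t
    _ ≤ |B| * Real.exp (-a * ‖T t - u‖ ^ 2) :=
        mul_le_mul_of_nonneg_right (le_abs_self _) (Real.exp_pos _).le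
    _ ≤ |B| * (Real.exp (a * ‖u‖ ^ 2) * Real.exp (-(a / (2 * K ^ 2)) * ‖t‖ ^ 2)) := by
        refine mul_le_mul_of_nonneg_left ?_ (abs_nonneg _)
        rw [← Real.exp_add]
        refine Real.exp_le_exp.2 ?_
        have h5 : a / (2 * K ^ 2) * ‖t‖ ^ 2 = a / 2 * (‖t‖ ^ 2 / K ^ 2) := by
          field_simp
        rw [neg_mul, neg_mul, h5]
        nlinarith
    _ = _ := by ring

theorem haar_const (T : W ≃ₗ[ℝ] V) :
    ∃ c : ℝ, ∀ h : V → ℂ, ∫ t : W, h (T t) = (c : ℂ) * ∫ v : V, h v := by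
  obtain ⟨T', hT'⟩ : ∃ T' : W ≃L[ℝ] V, ∀ t, T' t = T t :=
    ⟨T.toContinuousLinearEquiv, fun t => rfl⟩
  have h1 : (Measure.map T' (volume : Measure W)).IsAddHaarMeasure :=
    T'.isAddHaarMeasure_map volume
  have h2 := Measure.isAddLeftInvariant_eq_smul (Measure.map T' (volume : Measure W))
    (volume : Measure V)
  refine ⟨((Measure.map T' (volume : Measure W)).addHaarScalarFactor (volume : Measure V) : ℝ),
    fun h => ?_⟩
  have h3 : ∫ t : W, h (T' t) = ∫ v, h v ∂(Measure.map T' (volume : Measure W)) :=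
    (T'.toHomeomorph.measurableEmbedding.integral_map h).symm
  have h4 : ∫ t : W, h (T t) = ∫ t : W, h (T' t) := by
    simp only [hT']
  rw [h4, h3]
  conv_lhs => rw [h2]
  rw [integral_smul_nnreal_measure]
  rfl

theorem exists_basis (L : Submodule ℤ V) (hL : TypeII L) :
    ∃ e : Module.Basis (Fin 72) ℝ V, Submodule.span ℤ (Set.range e) = L := by
  have := hL.discrete
  have := hL.full
  have : Module.Free ℤ L := ZLattice.module_free ℝ L
  have : Module.Finite ℤ L := ZLattice.module_finite ℝ L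
  let b := Module.Free.chooseBasis ℤ L
  have hcard : Fintype.card (Module.Free.ChooseBasisIndex ℤ L) = 72 := by
    rw [← Module.finrank_eq_card_chooseBasisIndex, ZLattice.rank ℝ L]
    simp [V]
  let b' := b.reindex (Fintype.equivFinOfCardEq hcard)
  exact ⟨b'.ofZLatticeBasis ℝ L, b'.ofZLatticeBasis_span ℝ L⟩

/-- the data of a lattice -/
theorem exists_data (L : Submodule ℤ V) (hL : TypeII L) :
    ∃ (T : W ≃ₗ[ℝ] V) (D : W ≃ₗ[ℝ] V) (A B : (Fin 72 → ℤ) ≃ L),
      (∀ m, ((A m : L) : V) = T (Y773.lp m)) ∧ (∀ m, ((B m : L) : V) = D (Y773.lp m)) ∧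
      ∀ s t : W, inner ℝ (D s) (T t) = ∑ i, s i * t i := by
  obtain ⟨e, he⟩ := exists_basis L hL
  obtain ⟨T, hT⟩ : ∃ T : W ≃ₗ[ℝ] V, ∀ t, T t = ∑ i, t i • e i :=
    ⟨e.equivFun.symm, fun t => e.equivFun_symm_apply t⟩
  have hTs : ∀ v, ∃ t, T t = v := T.surjective
  -- the coordinates with respect to the dual basis
  obtain ⟨P, hP⟩ : ∃ P : V →ₗ[ℝ] W, ∀ v i, P v i = inner ℝ (e i) v :=
    ⟨LinearMap.pi fun i => (innerₛₗ ℝ (e i)), fun v i => rfl⟩
  have hPT : ∀ v t, inner ℝ v (T t) = ∑ i, P v i * t i := by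
    intro v t
    rw [hT, inner_sum]
    refine Finset.sum_congr rfl fun i _ => ?_
    rw [inner_smul_right, hP, real_inner_comm, mul_comm]
  have hPi : Function.Injective P := by
    rw [← LinearMap.ker_eq_bot, LinearMap.ker_eq_bot']
    intro v hv
    obtain ⟨t, ht⟩ := hTs v
    have h1 := hPT v t
    rw [hv, ht] at h1
    simpa using h1
  have hdim : Module.finrank ℝ V = Module.finrank ℝ W := by
    simp [V, W]
  let Q := LinearMap.linearEquivOfInjective P hPi hdim
  have hQ : ∀ v, Q v = P v := fun v => rfl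
  obtain ⟨D, hD⟩ : ∃ D : W ≃ₗ[ℝ] V, ∀ s, P (D s) = s := by
    refine ⟨Q.symm, fun s => ?_⟩
    rw [← hQ, Q.apply_symm_apply]
  have hDT : ∀ s t : W, inner ℝ (D s) (T t) = ∑ i, s i * t i := by
    intro s t
    rw [hPT, hD]
  have hmemT : ∀ v, v ∈ L ↔ ∃ m : Fin 72 → ℤ, T (Y773.lp m) = v := by
    intro v
    rw [← he, Submodule.mem_span_range_iff_exists_fun]
    refine exists_congr fun m => ?_
    rw [hT]
    have h1 : ∑ i, m i • e i = ∑ i, (Y773.lp m) i • e i := by
      refine Finset.sum_congr rfl fun i _ => ?_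
      unfold Y773.lp
      rw [Int.cast_smul_eq_zsmul]
    rw [h1]
  have hmemD : ∀ v, v ∈ L ↔ ∃ m : Fin 72 → ℤ, D (Y773.lp m) = v := by
    intro v
    rw [hL.dual v]
    constructor
    · intro h
      have h1 : ∀ i, ∃ k : ℤ, inner ℝ (e i) v = (k : ℝ) := fun i => h _ (by
        rw [← he]
        exact Submodule.subset_span ⟨i, rfl⟩)
      choose m hm using h1
      refine ⟨m, ?_⟩
      refine hPi ?_
      rw [hD]
      funext i
      rw [hP, hm]
      rfl
    · rintro ⟨m, rfl⟩ x hx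
      obtain ⟨n, rfl⟩ := (hmemT x).1 hx
      refine ⟨∑ i, m i * n i, ?_⟩
      rw [real_inner_comm, hDT]
      push_cast
      rfl
  have hlp : Function.Injective (Y773.lp : (Fin 72 → ℤ) → W) := by
    intro m n h
    funext i
    have := congrFun h i
    unfold Y773.lp at this
    exact_mod_cast this
  let fA : (Fin 72 → ℤ) → L := fun m => ⟨T (Y773.lp m), (hmemT _).2 ⟨m, rfl⟩⟩
  let fB : (Fin 72 → ℤ) → L := fun m => ⟨D (Y773.lp m), (hmemD _).2 ⟨m, rfl⟩⟩
  have hA : Function.Bijective fA := by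
    constructor
    · intro m n h
      exact hlp (T.injective (congrArg Subtype.val h))
    · rintro ⟨v, hv⟩
      obtain ⟨m, hm⟩ := (hmemT v).1 hv
      exact ⟨m, Subtype.ext hm⟩
  have hB : Function.Bijective fB := by
    constructor
    · intro m n h
      exact hlp (D.injective (congrArg Subtype.val h))
    · rintro ⟨v, hv⟩
      obtain ⟨m, hm⟩ := (hmemD v).1 hv
      exact ⟨m, Subtype.ext hm⟩
  exact ⟨T, D, Equiv.ofBijective fA hA, Equiv.ofBijective fB hB, fun m => rfl, fun m => rfl, hDT⟩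

theorem norm_term (τ : ℂ) (r s : ℝ) :
    ‖cexp (Real.pi * I * τ * ((r : ℝ) : ℂ) + 2 * Real.pi * I * ((s : ℝ) : ℂ))‖ =
      Real.exp (-(Real.pi * τ.im) * r) := by
  rw [Complex.norm_exp]
  congr 1
  simp

theorem norm_term' (τ : ℂ) (r : ℝ) :
    ‖cexp (Real.pi * I * τ * ((r : ℝ) : ℂ))‖ = Real.exp (-(Real.pi * τ.im) * r) := by
  rw [Complex.norm_exp]
  congr 1
  simp

theorem im_inv_pos (τ : ℂ) (hτ : 0 < τ.im) : 0 < (-1 / τ).im := by
  have h0 : τ ≠ 0 := by
    rintro rfl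
    simp at hτ
  rw [neg_div, one_div, Complex.neg_im, Complex.inv_im]
  have := Complex.normSq_pos.2 h0
  rw [neg_div, neg_neg]
  positivity

theorem formula (L : Submodule ℤ V) (hL : TypeII L) :
    (∀ τ : ℂ, 0 < τ.im → Summable fun x : L =>
      ‖cexp (Real.pi * I * τ * ((inner ℝ (x : V) (x : V) : ℝ) : ℂ))‖) ∧
    ∃ c : ℝ, ∀ (w : V) (τ : ℂ), 0 < τ.im →
      ∑' x : L, cexp (Real.pi * I * τ * ((inner ℝ (x : V) (x : V) : ℝ) : ℂ) +
        2 * Real.pi * I * ((inner ℝ w (x : V) : ℝ) : ℂ)) =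
      (c : ℂ) * ((τ ^ 36)⁻¹ * ∑' x : L, cexp (Real.pi * I * (-1 / τ) *
        ((inner ℝ ((x : V) - w) ((x : V) - w) : ℝ) : ℂ))) := by
  obtain ⟨T, D, A, B, hA, hB, hDT⟩ := exists_data L hL
  obtain ⟨c, hc⟩ := haar_const T
  have hTc : Continuous fun t : W => T t := (T : W →ₗ[ℝ] V).continuous_of_finiteDimensional
  have hDc : Continuous fun t : W => D t := (D : W →ₗ[ℝ] V).continuous_of_finiteDimensional
  have hgd : ∀ (w : V) (τ : ℂ), 0 < τ.im → GD fun t : W =>
      cexp (Real.pi * I * τ * ((inner ℝ (T t) (T t) : ℝ) : ℂ) +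
        2 * Real.pi * I * ((inner ℝ w (T t) : ℝ) : ℂ)) := by
    intro w τ hτ
    refine gd_of T (Real.pi * τ.im) (mul_pos Real.pi_pos hτ) 0 1 _ fun t => ?_
    rw [norm_term, real_inner_self_eq_norm_sq, sub_zero, one_mul]
  refine ⟨fun τ hτ => ?_, c, fun w τ hτ => ?_⟩
  · rw [← A.summable_iff]
    refine (summable_gd (hgd 0 τ hτ) 0).congr fun m => ?_
    simp only [Function.comp_apply]
    rw [norm_term, norm_term', zero_add, hA]
  · have hg := hgd w τ hτ
    obtain ⟨g, hgg⟩ : ∃ g : W → ℂ, g = fun t : W =>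
      cexp (Real.pi * I * τ * ((inner ℝ (T t) (T t) : ℝ) : ℂ) +
        2 * Real.pi * I * ((inner ℝ w (T t) : ℝ) : ℂ)) := ⟨_, rfl⟩
    rw [← hgg] at hg
    have hgc : Continuous g := by
      rw [hgg]
      fun_prop
    have hτ0 : τ ≠ 0 := by
      rintro rfl
      simp at hτ
    have hpi : (Real.pi : ℂ) ≠ 0 := by exact_mod_cast Real.pi_ne_zero
    have hI := Complex.I_ne_zero
    have hhat : ∀ k : Fin 72 → ℤ, ghat g k = (c : ℂ) * ((τ ^ 36)⁻¹ *
        cexp (Real.pi * I * (-1 / τ) * ((inner ℝ (D (Y773.lp k) - w) (D (Y773.lp k) - w) : ℝ) : ℂ))) := by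
      intro k
      unfold ghat
      have h1 : (fun t : W => ech (-k) t * g t) = fun t : W =>
          (fun v : V => cexp (-(-(Real.pi * I * τ)) * ‖v‖ ^ 2 +
            (2 * Real.pi * I) * ((inner ℝ (w - D (Y773.lp k)) v : ℝ) : ℂ))) (T t) := by
        funext t
        rw [hgg]
        simp only
        unfold ech
        rw [← Complex.exp_add]
        congr 1
        have h2 : inner ℝ (w - D (Y773.lp k)) (T t) = inner ℝ w (T t) - ∑ i, Y773.lp k i * t i := by
          rw [inner_sub_left, hDT]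
        have h3 : ∑ i, (((-k) i : ℤ) : ℝ) * t i = -∑ i, Y773.lp k i * t i := by
          rw [← Finset.sum_neg_distrib]
          refine Finset.sum_congr rfl fun i _ => ?_
          unfold Y773.lp
          push_cast
          simp
        rw [h2, h3, real_inner_self_eq_norm_sq]
        push_cast
        ring
      rw [h1, hc (fun v : V => cexp (-(-(Real.pi * I * τ)) * ‖v‖ ^ 2 +
            (2 * Real.pi * I) * ((inner ℝ (w - D (Y773.lp k)) v : ℝ) : ℂ)))]
      congr 1
      have hb : 0 < (-(Real.pi * I * τ) : ℂ).re := by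
        have : (-(Real.pi * I * τ) : ℂ).re = Real.pi * τ.im := by simp
        rw [this]
        exact mul_pos Real.pi_pos hτ
      have h2 := GaussianFourier.integral_cexp_neg_mul_sq_norm_add (V := V) hb
        (2 * Real.pi * I) (w - D (Y773.lp k))
      refine Eq.trans h2 ?_
      have hfr : (Module.finrank ℝ V : ℂ) / 2 = ((36 : ℕ) : ℂ) := by
        simp [V]
        norm_num
      rw [hfr, Complex.cpow_natCast]
      have h3 : ((Real.pi : ℂ) / -(Real.pi * I * τ)) ^ 36 = (τ ^ 36)⁻¹ := by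
        have h4 : (Real.pi : ℂ) / -(Real.pi * I * τ) = I / τ := by
          field_simp
          rw [Complex.I_sq]
        rw [h4, div_pow]
        have h5 : I ^ 36 = 1 := by
          rw [show (36 : ℕ) = 4 * 9 by norm_num, pow_mul, Complex.I_pow_four, one_pow]
        rw [h5, one_div]
      rw [h3]
      congr 2
      rw [real_inner_self_eq_norm_sq, norm_sub_rev]
      push_cast
      field_simp
      ring
    have hsum : Summable (ghat g) := by
      have h1 : GD fun t : W => cexp (Real.pi * I * (-1 / τ) *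
          ((inner ℝ (D t - w) (D t - w) : ℝ) : ℂ)) := by
        refine gd_of D (Real.pi * (-1 / τ).im) (mul_pos Real.pi_pos (im_inv_pos τ hτ)) w 1 _
          fun t => ?_
        rw [norm_term', real_inner_self_eq_norm_sq, one_mul]
      have h2 := (summable_gd h1 0).of_norm
      have h3 := (h2.mul_left ((τ ^ 36)⁻¹)).mul_left (c : ℂ)
      refine h3.congr fun k => ?_
      rw [hhat, zero_add]
    have hp := poisson hg hgc hsum 0
    have e1 : ∑' x : L, cexp (Real.pi * I * τ * ((inner ℝ (x : V) (x : V) : ℝ) : ℂ) +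
        2 * Real.pi * I * ((inner ℝ w (x : V) : ℝ) : ℂ)) = ∑' m : Fin 72 → ℤ, g (0 + Y773.lp m) := by
      rw [← A.tsum_eq]
      refine tsum_congr fun m => ?_
      rw [hgg, zero_add, hA]
    rw [e1, hp]
    have e2 : ∑' x : L, cexp (Real.pi * I * (-1 / τ) *
        ((inner ℝ ((x : V) - w) ((x : V) - w) : ℝ) : ℂ)) = ∑' m : Fin 72 → ℤ,
        cexp (Real.pi * I * (-1 / τ) * ((inner ℝ (D (Y773.lp m) - w) (D (Y773.lp m) - w) : ℝ) : ℂ)) := by
      rw [← B.tsum_eq]
      refine tsum_congr fun m => ?_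
      rw [hB]
    rw [e2, ← tsum_mul_left, ← tsum_mul_left]
    refine tsum_congr fun k => ?_
    have h0 : ech k (0 : W) = 1 := by
      unfold ech
      simp
    rw [hhat, h0, mul_one]

end Pool.Agent.Q91.L72.INV

namespace Pool.Agent.Q91.L72

open Pool.Agent.Q248.L72

theorem t_INV : Pool.Agent.Q248.L72.S_INV := by
  intro L hL w τ hτ
  obtain ⟨hs, c, hc⟩ := INV.formula L hL
  have hI : 0 < (I : ℂ).im := by simp
  have h1 := hc 0 I hI
  have h2 : (-1 / I : ℂ) = I := by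
    rw [div_eq_iff Complex.I_ne_zero, Complex.I_mul_I]
  have h3 : (I ^ 36 : ℂ)⁻¹ = 1 := by
    rw [show (36 : ℕ) = 4 * 9 by norm_num, pow_mul, Complex.I_pow_four, one_pow, inv_one]
  rw [h2, h3, one_mul] at h1
  simp only [inner_zero_left, Complex.ofReal_zero, mul_zero, add_zero, sub_zero] at h1
  have h4 : ∀ x : L, cexp (Real.pi * I * I * ((inner ℝ (x : V) (x : V) : ℝ) : ℂ)) =
      ((Real.exp (-Real.pi * inner ℝ (x : V) (x : V)) : ℝ) : ℂ) := by
    intro x
    rw [mul_assoc (Real.pi : ℂ) I I, Complex.I_mul_I]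
    push_cast
    congr 1
    ring
  have hsr : Summable fun x : L => Real.exp (-Real.pi * inner ℝ (x : V) (x : V)) := by
    refine (hs I hI).congr fun x => ?_
    rw [h4, Complex.norm_real, Real.norm_eq_abs, abs_of_pos (Real.exp_pos _)]
  have hpos : 0 < ∑' x : L, Real.exp (-Real.pi * inner ℝ (x : V) (x : V)) :=
    hsr.tsum_pos (fun _ => (Real.exp_pos _).le) 0 (Real.exp_pos _)
  simp only [h4] at h1
  rw [← Complex.ofReal_tsum] at h1
  have h5 : (c : ℂ) = 1 := by
    have h6 : ((∑' x : L, Real.exp (-Real.pi * inner ℝ (x : V) (x : V)) : ℝ) : ℂ) ≠ 0 := by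
      exact_mod_cast hpos.ne'
    exact (mul_right_cancel₀ h6 ((one_mul _).trans h1)).symm
  rw [hc w τ hτ, h5, one_mul]

end Pool.Agent.Q91.L72
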