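import Pool.Agent.Q248.L72.Stm

/-! Project L72 (helper248), job STURM: level one forms of weight `< 48` which vanish to order four
at infinity are zero. -/

set_option autoImplicit false

open PowerSeries MatrixGroups ModularForm Complex Function Filter Topology MeasureTheory
open UpperHalfPlane hiding I

namespace Pool.Agent.Q91.L72.ST

variable {k : ℕ} {f : ℂ → ℂ}

theorem coeff_small (g : ModularForm 𝒮ℒ (k : ℤ)) (C : ℝ)
    (hC : ∀ τ : ℍ, 1 ≤ τ.im → ‖g τ‖ ≤ C * Real.exp (-8 * Real.pi * τ.im)) (n : ℕ) (hn : n ≤ 3) :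
    (qExpansion 1 g).coeff n = 0 := by
  have hC0 : 0 ≤ C := by
    have h1 := hC ⟨Complex.I, by simp⟩ (by simp [UpperHalfPlane.im])
    have h2 := (norm_nonneg _).trans h1
    exact nonneg_of_mul_nonneg_left h2 (Real.exp_pos _)
  have hb : ∀ t : ℝ, 1 ≤ t → ‖(qExpansion 1 g).coeff n‖ ≤ C * Real.exp (-2 * Real.pi * t) := by
    intro t ht
    have ht0 : 0 < t := by linarith
    rw [ModularFormClass.qExpansion_coeff_eq_intervalIntegral (f := g) one_pos
      one_mem_strictPeriods_SL n ht0]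
    rw [norm_mul]
    have h1 : ‖∫ u in (0 : ℝ)..1, 1 / Periodic.qParam 1 (u + t * Complex.I) ^ n *
        g ⟨u + t * Complex.I, by simpa using ht0⟩‖ ≤
        (C * Real.exp (-2 * Real.pi * t)) * |1 - 0| := by
      refine intervalIntegral.norm_integral_le_of_norm_le_const ?_
      intro u _
      have h2 := hC ⟨u + t * Complex.I, by simpa using ht0⟩ (by simpa [UpperHalfPlane.im] using ht)
      have h3 : ‖1 / Periodic.qParam 1 (u + t * Complex.I) ^ n‖ = Real.exp (2 * Real.pi * t * n) := by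
        rw [norm_div, norm_one, norm_pow, Periodic.norm_qParam, one_div, ← Real.exp_nat_mul,
          ← Real.exp_neg]
        congr 1
        simp
        ring
      rw [norm_mul, h3]
      have h4 : UpperHalfPlane.im ⟨u + t * Complex.I, by simpa using ht0⟩ = t := by
        simp [UpperHalfPlane.im]
      rw [h4] at h2
      have h5 : (n : ℝ) ≤ 3 := by exact_mod_cast hn
      calc Real.exp (2 * Real.pi * t * n) * ‖g ⟨u + t * Complex.I, by simpa using ht0⟩‖ ≤
          Real.exp (2 * Real.pi * t * 3) * (C * Real.exp (-8 * Real.pi * t)) := by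
            refine mul_le_mul (Real.exp_le_exp.2 ?_) h2 (norm_nonneg _) (Real.exp_pos _).le
            exact mul_le_mul_of_nonneg_left h5 (by positivity)
        _ = C * (Real.exp (2 * Real.pi * t * 3) * Real.exp (-8 * Real.pi * t)) := by ring
        _ = C * Real.exp (-2 * Real.pi * t) := by
            rw [← Real.exp_add]
            congr 2
            ring
    rw [sub_zero, abs_one, mul_one] at h1
    simpa using h1
  have hlim : Tendsto (fun t : ℝ => C * Real.exp (-2 * Real.pi * t)) atTop (𝓝 (C * 0)) := by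
    refine Tendsto.const_mul _ ?_
    refine Real.tendsto_exp_atBot.comp ?_
    exact tendsto_id.const_mul_atTop_of_neg (by nlinarith [Real.pi_pos])
  rw [mul_zero] at hlim
  have h0 : ‖(qExpansion 1 g).coeff n‖ ≤ 0 :=
    ge_of_tendsto hlim (by filter_upwards [eventually_ge_atTop 1] with t ht using hb t ht)
  exact norm_le_zero_iff.1 h0

theorem build (k : ℕ) (f : ℂ → ℂ) (hf : DifferentiableOn ℂ f {τ : ℂ | 0 < τ.im})
    (h1 : ∀ τ : ℂ, 0 < τ.im → f (τ + 1) = f τ)
    (hS : ∀ τ : ℂ, 0 < τ.im → f (-1 / τ) = τ ^ k * f τ) (C : ℝ)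
    (hC : ∀ τ : ℂ, 1 ≤ τ.im → ‖f τ‖ ≤ C * Real.exp (-8 * Real.pi * τ.im)) :
    ∃ g : ModularForm 𝒮ℒ (k : ℤ), ∀ τ : ℍ, g τ = f τ := by
  obtain ⟨g, hg⟩ : ∃ g : ℍ → ℂ, g = fun τ : ℍ => f τ := ⟨_, rfl⟩
  have hS' : g ∣[(k : ℤ)] ModularGroup.S = g := by
    ext τ
    rw [SL_slash_apply, UpperHalfPlane.modular_S_smul]
    have hd : denom (ModularGroup.S : SL(2, ℤ)) τ = (τ : ℂ) := ModularGroup.denom_S τ
    rw [hd, zpow_neg, hg]
    simp only
    have h2 := hS τ τ.im_pos
    have h3 : (((-(τ : ℂ))⁻¹ : ℂ)) = -1 / (τ : ℂ) := by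
      rw [inv_neg, neg_div, one_div]
    rw [h3, h2, zpow_natCast]
    have h5 : (τ : ℂ) ^ k ≠ 0 := pow_ne_zero _ (ne_zero τ)
    field_simp
  have hT : g ∣[(k : ℤ)] ModularGroup.T = g := by
    ext τ
    have e1 : (g ∣[(k : ℤ)] ModularGroup.T) τ = g ((1 : ℝ) +ᵥ τ) := by
      rw [SL_slash_apply, UpperHalfPlane.modular_T_smul]
      have hd : denom (ModularGroup.T : SL(2, ℤ)) τ = 1 := by
        rw [ModularGroup.denom_apply]; simp [ModularGroup.T]
      rw [hd]
      simp
    rw [e1, hg]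
    simp only
    rw [UpperHalfPlane.coe_vadd, add_comm]
    push_cast
    exact h1 τ τ.im_pos
  have hb : IsBoundedAtImInfty g := by
    rw [UpperHalfPlane.isBoundedAtImInfty_iff]
    refine ⟨|C|, 1, fun z hz => ?_⟩
    rw [hg]
    refine (hC z hz).trans ?_
    have h2 : Real.exp (-8 * Real.pi * (z : ℂ).im) ≤ 1 := by
      rw [Real.exp_le_one_iff]
      have := Real.pi_pos
      have h3 : 0 < (z : ℂ).im := z.im_pos
      nlinarith [mul_pos this h3]
    calc C * Real.exp (-8 * Real.pi * (z : ℂ).im) ≤ |C| * Real.exp (-8 * Real.pi * (z : ℂ).im) :=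
          mul_le_mul_of_nonneg_right (le_abs_self _) (Real.exp_pos _).le
      _ ≤ |C| * 1 := mul_le_mul_of_nonneg_left h2 (abs_nonneg _)
      _ = |C| := mul_one _
  let G : ModularForm 𝒮ℒ (k : ℤ) :=
    { toFun := g
      slash_action_eq' := by
        intro A hA
        obtain ⟨A, rfl⟩ := hA
        exact SlashInvariantForm.slash_action_generators_SL2Z hS' hT A
      holo' := by
        rw [UpperHalfPlane.mdifferentiable_iff]
        refine hf.congr fun z hz => ?_
        change g (UpperHalfPlane.ofComplex z) = f z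
        rw [UpperHalfPlane.ofComplex_apply_of_im_pos hz, hg]
      bdd_at_cusps' := by
        intro c hc
        rw [Subgroup.IsArithmetic.isCusp_iff_isCusp_SL2Z] at hc
        rw [OnePoint.isBoundedAt_iff_forall_SL2Z hc]
        intro γ _
        rw [SlashInvariantForm.slash_action_generators_SL2Z hS' hT]
        exact hb }
  refine ⟨G, fun τ => ?_⟩
  have h2 : G τ = g τ := rfl
  rw [h2, hg]

end Pool.Agent.Q91.L72.ST

namespace Pool.Agent.Q91.L72

theorem t_STURM : Pool.Agent.Q248.L72.S_STURM := by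
  intro k f hk hf h1 hS hC τ hτ
  obtain ⟨C, hC⟩ := hC
  obtain ⟨g, hg⟩ := ST.build k f hf h1 hS C hC
  have h2 : g = 0 := by
    refine ModularForm.sturm_bound_levelOne_nat ?_
    have h3 : ((4 : ℕ) : ℕ∞) ≤ (qExpansion 1 g).order := by
      refine PowerSeries.nat_le_order _ _ fun n hn => ?_
      refine ST.coeff_small g C (fun τ hτ => ?_) n (by omega)
      rw [hg]
      exact hC τ hτ
    refine lt_of_lt_of_le ?_ h3
    have h4 : k / 12 < 4 := by omega
    exact_mod_cast h4
  have h3 := hg ⟨τ, hτ⟩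
  rw [h2] at h3
  exact h3.symm

end Pool.Agent.Q91.L72
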